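import Pool.Agent.W425.SH.Main
import Pool.Agent.W342.SH.H2

set_option autoImplicit false

namespace Pool.Agent.W425.SH

open MvPolynomial Pool.Agent.H628R4.TZ Pool.Agent.W425.SM Pool.Agent.W425.SL

variable {r N : ℕ}

open Polynomial in
theorem final' (hr : 1 ≤ r) (v : Fin r → Fin N → ℕ) (a : Fin r → ℂ)
    (h : MvPolynomial (Fin N) ℂ)
    (hv : AffineIndependent ℚ (fun j => (fun i => (v j i : ℚ) : Fin N → ℚ)))
    (hv0 : ∀ j, v j ≠ 0) (ha : ∀ j, a j ≠ 0) (h1 : h = 0 ∨ Higher v h) (h2 : Above v h)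
    (R : SmoothFan N) (hR : Principal v R)
    (b : ℂ[X]) (hb : Pool.Agent.H628R4.TP.IsLocalBFunction (sparse v a + h) b) :
    ∃ P : ℂ[X], algebraMap ℂ[X] (RatFunc ℂ) b * topZetaSparseLocal v R =
      algebraMap ℂ[X] (RatFunc ℂ) P := by
  rcases h1 with rfl | h1
  · rw [add_zero] at hb
    exact Pool.Agent.W425.SL.final hr v a hv hv0 ha R hR b hb
  · exact final Pool.Agent.W342.SH.taskH2 hr v a h hv hv0 ha h1 h2 R hR b hb

end Pool.Agent.W425.SH
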