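import Pool.Agent.W425.SL.Defs

set_option autoImplicit false

/-! Local version with higher order terms: definitions and statements of the parts. -/

namespace Pool.Agent.W425.SH

open MvPolynomial Pool.Agent.H628R4.TZ Pool.Agent.H628R4.TP Pool.Agent.W425.SM Pool.Agent.W425.SL

/-- the inequality which makes the terms of weight one vanish -/
def Kill1 {r N : ℕ} (v : Fin r → Fin N → ℕ) (c : Fin r → ℤ) (B : Finset (Fin N)) : Prop :=
  ∃ K : ℝ, ∀ (t : ℝ) (x : Fin N → ℝ), 0 ≤ t → (∀ i, 0 ≤ x i) →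
    (∀ j, t ≤ ∑ i, (v j i : ℝ) * x i) →
    ∑ j, (c j : ℝ) * (∑ i, (v j i : ℝ) * x i - t) ≤ -t + K * ∑ i ∈ B, x i

/-- the inequality which makes the terms of weight zero vanish -/
def Kill0 {r N : ℕ} (v : Fin r → Fin N → ℕ) (c : Fin r → ℤ) : Prop :=
  ∃ η : ℝ, 0 < η ∧ ∀ (t ξ : ℝ) (x : Fin N → ℝ), 0 ≤ t → 0 ≤ ξ → (∀ i, ξ ≤ x i) →
    (∀ j, t ≤ ∑ i, (v j i : ℝ) * x i) →
    ∑ j, (c j : ℝ) * (∑ i, (v j i : ℝ) * x i - t) ≤ -(η * ξ)

/-- The general algebraic relation. -/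
def RelG {r N : ℕ} (v : Fin r → Fin N → ℕ) (p : Polynomial ℂ) : Prop :=
  ∃ (M n n0 : ℕ) (c : Fin n → Fin r → ℤ) (B : Fin n → Finset (Fin N))
    (q : Fin n → MvPolynomial (Fin r) ℂ) (c0 : Fin n0 → Fin r → ℤ)
    (q0 : Fin n0 → MvPolynomial (Fin r) ℂ),
    (∀ k, Kill1 v (c k) (B k)) ∧ (∀ k, Kill0 v (c0 k)) ∧
    Polynomial.aeval (∑ j, X j : MvPolynomial (Fin r) ℂ) p * ∏ j, dm M j =
      ∑ k, (∏ i ∈ B k, el v i) * ((∏ j, if c k j < 0 then X j * dm M j else 1) * q k) +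
      ∑ k, (∏ j, if c0 k j < 0 then X j * dm M j else 1) * q0 k

/-- `h` consists of terms of higher order: there is a weight `ρ` with `ρ(v_j) = 1` for all `j`
and `ρ(w) > 1` for all the exponents `w` of `h`. -/
def Higher {r N : ℕ} (v : Fin r → Fin N → ℕ) (h : MvPolynomial (Fin N) ℂ) : Prop :=
  ∃ ρ : Fin N → ℝ, (∀ j, ∑ i, ρ i * (v j i : ℝ) = 1) ∧
    ∀ w ∈ h.support, 1 < ∑ i, ρ i * (w i : ℝ)

/-- The exponents of `h` lie in the Newton polyhedron of the `v_j`, and not on its compact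
faces. -/
def Above {r N : ℕ} (v : Fin r → Fin N → ℕ) (h : MvPolynomial (Fin N) ℂ) : Prop :=
  ∀ w ∈ h.support, ∀ x : Fin N → ℝ, (∀ i, 0 < x i) →
    ∃ j, ∑ i, (v j i : ℝ) * x i < ∑ i, (w i : ℝ) * x i

/-- Part H2 -/
def TaskH2 : Prop := ∀ {r N : ℕ} (v : Fin r → Fin N → ℕ) (a : Fin r → ℂ)
  (h : MvPolynomial (Fin N) ℂ) (p : Polynomial ℂ),
  Ind v → (∀ j, a j ≠ 0) → Higher v h → Above v h →
  IsUnitBFunction (sparse v a + h) ((Polynomial.X + 1) * p) → RelG v p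

end Pool.Agent.W425.SH
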