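import Pool.Agent.W425.SH.Defs
import Pool.Agent.W425.SM.FF

set_option autoImplicit false

namespace Pool.Agent.W425.SH

open MvPolynomial Pool.Agent.H628R4.TZ Pool.Agent.H628R4.TP Pool.Agent.W425.SM Pool.Agent.W425.SL
  MeasureTheory Set Filter Topology

variable {r N : ℕ}

/-- what is known at a point where the integrand does not vanish -/
lemma nonvan (v : Fin r → Fin N → ℕ) (ε : ℝ) (hε : 0 < ε) (κ : Fin r → ℕ) (M : ℕ)
    (hκ : ∀ j, κ j ≤ M) (c : Fin r → ℤ) (y : Fin r → ℝ) (q : MvPolynomial (Fin r) ℂ)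
    (hne' : DD (pk ε κ) y (q * ∏ j, (if c j < 0 then X j * dm M j else 1)) ≠ 0) :
    (∀ j, 0 ≤ y j) ∧ -(ε * ∑ j, |(c j : ℝ)|) ≤ ∑ j, (c j : ℝ) * y j := by
  have h1 : ∀ j, 0 ≤ y j := by
    intro j
    by_contra h
    exact hne' (DD_neg ε hε κ y j (not_le.1 h) _)
  have h2 : ∀ j, c j < 0 → y j ≤ ε := by
    intro j hj
    by_contra h
    apply hne'
    have h3 : (X j + C ((κ j : ℕ) : ℂ)) ∣ q * ∏ j, (if c j < 0 then X j * dm M j else 1) := by
      refine Dvd.dvd.mul_left ?_ q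
      refine (Xdm_dvd M j (κ j) (hκ j)).trans ?_
      have := Finset.dvd_prod_of_mem
        (fun j => (if c j < 0 then X j * dm M j else 1 : MvPolynomial (Fin r) ℂ)) (Finset.mem_univ j)
      simpa [hj] using this
    obtain ⟨w, hw⟩ := h3
    rw [hw]
    exact DD_tail ε hε κ y j (not_le.1 h) w
  refine ⟨h1, ?_⟩
  rw [Finset.mul_sum, ← Finset.sum_neg_distrib]
  refine Finset.sum_le_sum fun j _ => ?_
  rcases lt_or_ge (c j) 0 with h | h
  · have h' : (c j : ℝ) < 0 := by exact_mod_cast h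
    rw [abs_of_neg h']
    nlinarith [h2 j h]
  · have h' : (0:ℝ) ≤ c j := by exact_mod_cast h
    rw [abs_of_nonneg h']
    nlinarith [h1 j, mul_nonneg h' (h1 j), mul_nonneg hε.le h']

lemma Y_eq (v : Fin r → Fin N → ℕ) (T δ : ℝ) (x : Fin (N+1) → ℝ) (j : Fin r) :
    Y (av v) (yT v T δ) x j = ∑ i, (v j i : ℝ) * (x i.succ - δ) - (x 0 + T) := by
  rw [Y_av', yT]
  simp only [mul_sub, Finset.sum_sub_distrib]
  rw [← Finset.sum_mul]
  ring

lemma killed1G (v : Fin r → Fin N → ℕ) (ε : ℝ) (hε : 0 < ε) (κ : Fin r → ℕ) (M : ℕ)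
    (hκ : ∀ j, κ j ≤ M) (s T δ : ℝ) (hδ : δ < 0) (hT0 : 0 < T) (c : Fin r → ℤ)
    (B : Finset (Fin N)) (K : ℝ)
    (hK : ∀ (t : ℝ) (x : Fin N → ℝ), 0 ≤ t → (∀ i, 0 ≤ x i) →
      (∀ j, t ≤ ∑ i, (v j i : ℝ) * x i) →
      ∑ j, (c j : ℝ) * (∑ i, (v j i : ℝ) * x i - t) ≤ -t + K * ∑ i ∈ B, x i)
    (hT : (ε + |δ|) * (∑ j, |(c j : ℝ)| + |K| * B.card) < T)
    (S : Finset (Fin N)) (q : MvPolynomial (Fin r) ℂ) (hS : B ⊆ S) :
    HH v ε κ s (yT v T δ) S (q * ∏ j, (if c j < 0 then X j * dm M j else 1)) = 0 := by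
  classical
  unfold HH
  refine integral_eq_zero_of_ae ?_
  filter_upwards [ae_ms (S.map (Fin.succEmb N))] with x hx
  obtain ⟨hx0, hxS⟩ := hx
  set y := Y (av v) (yT v T δ) x with hy
  by_contra hne
  have hne' : DD (pk ε κ) y (q * ∏ j, (if c j < 0 then X j * dm M j else 1)) ≠ 0 := by
    intro h
    apply hne
    simp only [Pi.zero_apply]
    rw [h, mul_zero]
  obtain ⟨h1, h3⟩ := nonvan v ε hε κ M hκ c y q hne'
  have h4 := hK (x 0 + T) (fun i => x i.succ - δ) (by have := hx0 0; linarith)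
    (fun i => by have := hx0 i.succ; linarith)
    (fun j => by have := h1 j; rw [hy, Y_eq] at this; linarith)
  have h5 : ∑ j, (c j : ℝ) * (∑ i, (v j i : ℝ) * (x i.succ - δ) - (x 0 + T)) =
      ∑ j, (c j : ℝ) * y j := Finset.sum_congr rfl fun j _ => by rw [hy, Y_eq]
  rw [h5] at h4
  have h6 : ∑ i ∈ B, (x i.succ - δ) = B.card * (-δ) := by
    rw [Finset.sum_congr rfl fun i hi => by rw [hxS i.succ (by simp [hS hi]), zero_sub]]
    simp
  rw [h6] at h4
  have h7 : K * (B.card * (-δ)) ≤ |δ| * (|K| * B.card) := by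
    rw [abs_of_neg hδ]
    have := mul_le_mul_of_nonneg_right (le_abs_self K)
      (mul_nonneg (Nat.cast_nonneg (α := ℝ) B.card) (neg_pos.2 hδ).le)
    linarith
  have h8 := hx0 0
  have h9 : 0 ≤ |δ| * ∑ j, |(c j : ℝ)| := by positivity
  have h10 : 0 ≤ ε * (|K| * B.card) := by positivity
  nlinarith

lemma killed0G (v : Fin r → Fin N → ℕ) (ε : ℝ) (hε : 0 < ε) (κ : Fin r → ℕ) (M : ℕ)
    (hκ : ∀ j, κ j ≤ M) (s T δ : ℝ) (hδ : δ < 0) (hT0 : 0 < T) (c : Fin r → ℤ) (η : ℝ)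
    (hη : ∀ (t ξ : ℝ) (x : Fin N → ℝ), 0 ≤ t → 0 ≤ ξ → (∀ i, ξ ≤ x i) →
      (∀ j, t ≤ ∑ i, (v j i : ℝ) * x i) →
      ∑ j, (c j : ℝ) * (∑ i, (v j i : ℝ) * x i - t) ≤ -(η * ξ))
    (hT : ε * (∑ j, |(c j : ℝ)|) < η * (-δ))
    (S : Finset (Fin N)) (q : MvPolynomial (Fin r) ℂ) :
    HH v ε κ s (yT v T δ) S (q * ∏ j, (if c j < 0 then X j * dm M j else 1)) = 0 := by
  classical
  unfold HH
  refine integral_eq_zero_of_ae ?_
  filter_upwards [ae_ms (S.map (Fin.succEmb N))] with x hx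
  obtain ⟨hx0, hxS⟩ := hx
  set y := Y (av v) (yT v T δ) x with hy
  by_contra hne
  have hne' : DD (pk ε κ) y (q * ∏ j, (if c j < 0 then X j * dm M j else 1)) ≠ 0 := by
    intro h
    apply hne
    simp only [Pi.zero_apply]
    rw [h, mul_zero]
  obtain ⟨h1, h3⟩ := nonvan v ε hε κ M hκ c y q hne'
  have h4 := hη (x 0 + T) (-δ) (fun i => x i.succ - δ) (by have := hx0 0; linarith)
    (neg_pos.2 hδ).le (fun i => by have := hx0 i.succ; linarith)
    (fun j => by have := h1 j; rw [hy, Y_eq] at this; linarith)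
  have h5 : ∑ j, (c j : ℝ) * (∑ i, (v j i : ℝ) * (x i.succ - δ) - (x 0 + T)) =
      ∑ j, (c j : ℝ) * y j := Finset.sum_congr rfl fun j _ => by rw [hy, Y_eq]
  rw [h5] at h4
  linarith

/-- **The functional kills `k * p(∑ X_j)`, general local version.** -/
theorem killsG (v : Fin r → Fin N → ℕ) (p : Polynomial ℂ) (hR : RelG v p)
    (k : MvPolynomial (Fin r) ℂ)
    (hk : ∀ (κ : Fin r → ℕ) (i : Fin N), ∑ j, κ j * v j i = 1 →
      k ∈ Ideal.span {p : MvPolynomial (Fin r) ℂ | ∃ j, 0 < v j i ∧ p = X j + C ((κ j : ℕ) : ℂ)}) :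
    ∃ K0 s0 : ℝ, 0 ≤ K0 ∧ 0 < s0 ∧ ∀ ε > 0, ∀ δ < 0, ε * K0 < -δ → ∀ T : ℝ,
      (ε + |δ|) * K0 < T → ∀ s : ℝ, s0 ≤ s →
      Φ (ph ε) ∅ (lm (N := N) s) (av v) (yT v T δ)
        (k * Polynomial.aeval (∑ j, X j : MvPolynomial (Fin r) ℂ) p) = 0 := by
  classical
  obtain ⟨M, n, n0, c, B, q, c0, q0, hc, hc0, hrel⟩ := hR
  choose KB hKB using hc
  choose η hη hηk using hc0
  obtain ⟨cf, hcf⟩ := DD_sum (r := r) M
  set KK := Fintype.piFinset (fun _ : Fin r => Finset.range (M+1)) with hKK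
  refine ⟨∑ k, (∑ j, |(c k j : ℝ)| + |KB k| * (B k).card) +
      ∑ k, (η k)⁻¹ * ∑ j, |(c0 k j : ℝ)|,
    (∑ κ ∈ KK, (Lam v κ : ℝ)) + 1, ?_, by positivity,
    fun ε hε δ hδ hεδ T hT s hs => ?_⟩
  · have h0 : ∀ k, 0 ≤ (η k)⁻¹ := fun k => (inv_pos.2 (hη k)).le
    exact add_nonneg (Finset.sum_nonneg fun k _ => by positivity)
      (Finset.sum_nonneg fun k _ => mul_nonneg (h0 k) (by positivity))
  have h0' : 0 ≤ ∑ k, (η k)⁻¹ * ∑ j, |(c0 k j : ℝ)| :=
    Finset.sum_nonneg fun k _ => mul_nonneg (inv_pos.2 (hη k)).le (by positivity)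
  have h0'' : 0 ≤ ∑ k, (∑ j, |(c k j : ℝ)| + |KB k| * (B k).card) :=
    Finset.sum_nonneg fun k _ => by positivity
  have hT1 : (ε + |δ|) * (∑ k, (∑ j, |(c k j : ℝ)| + |KB k| * (B k).card)) < T := by
    refine lt_of_le_of_lt (mul_le_mul_of_nonneg_left ?_ (by positivity)) hT
    exact le_add_of_nonneg_right h0'
  have hεδ1 : ε * (∑ k, (η k)⁻¹ * ∑ j, |(c0 k j : ℝ)|) < -δ := by
    refine lt_of_le_of_lt (mul_le_mul_of_nonneg_left ?_ hε.le) hεδ
    exact le_add_of_nonneg_left h0''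
  have hT0 : 0 < T := lt_of_le_of_lt (mul_nonneg (by positivity) h0'') hT1
  have hzero : ∀ κ ∈ KK, HH v ε κ s (yT v T δ) ∅
      ((k * Polynomial.aeval (∑ j, X j : MvPolynomial (Fin r) ℂ) p) * ∏ j, dm M j) = 0 ∧
      Gd v ε κ ∅ ((k * Polynomial.aeval (∑ j, X j : MvPolynomial (Fin r) ℂ) p) * ∏ j, dm M j) ∧
      (Lam v κ : ℝ) + 1 ≤ s := by
    intro κ hκ
    have hκM : ∀ j, κ j ≤ M := fun j => by
      have := (Fintype.mem_piFinset.1 hκ) j
      rw [Finset.mem_range] at this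
      omega
    have hs' : (Lam v κ : ℝ) + 1 ≤ s := by
      refine le_trans ?_ hs
      have := Finset.single_le_sum (f := fun κ : Fin r → ℕ => (Lam v κ : ℝ))
        (fun _ _ => Nat.cast_nonneg _) hκ
      linarith
    have hGd : Gd v ε κ ∅
        ((k * Polynomial.aeval (∑ j, X j : MvPolynomial (Fin r) ℂ) p) * ∏ j, dm M j) := by
      intro i _ hi
      have h1 : ∃ j, 0 < κ j * v j i := by
        by_contra hcon
        push Not at hcon
        have : ell v κ i = 0 := Finset.sum_eq_zero fun j _ => Nat.le_zero.1 (hcon j)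
        omega
      obtain ⟨j, hj⟩ := h1
      have hj1 : 0 < κ j := Nat.pos_of_mul_pos_right hj
      have hj2 : 0 < v j i := Nat.pos_of_mul_pos_left hj
      refine (goodDir_lin hε (κ := κ) j hj2).of_dvd ?_
      refine Dvd.dvd.mul_left ?_ _
      exact (dm_dvd M j (κ j) hj1 (hκM j)).trans (Finset.dvd_prod_of_mem _ (Finset.mem_univ j))
    refine ⟨?_, hGd, hs'⟩
    set L : List (Fin N) := (Finset.univ.filter fun i => 2 ≤ ell v κ i).toList with hL
    have hLnd : L.Nodup := Finset.nodup_toList _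
    have hLell : ∀ i ∈ L, ell v κ i ≠ 1 := fun i hi => by
      have : 2 ≤ ell v κ i := by simpa [hL] using hi
      omega
    have hkgood : ∀ i, i ∉ L → 0 < ell v κ i → GoodDir v ε κ i k := by
      intro i hi h
      have h1 : ell v κ i = 1 := by
        have : ¬ 2 ≤ ell v κ i := fun h' => hi (by simp [hL, h'])
        omega
      have h2 := hk κ i h1
      rw [← Submodule.mem_toAddSubmonoid, ] at h2
      refine Submodule.span_induction (p := fun x _ => GoodDir v ε κ i x) ?_ ?_ ?_ ?_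
        (by simpa [Ideal.span] using h2)
      · rintro x ⟨j, hj, rfl⟩
        exact goodDir_lin hε j hj
      · exact GoodDir.zero
      · intro x y _ _ hx hy
        exact hx.add hy
      · intro a x _ hx
        exact hx.mul_left a
    rw [← FF_eq v ε hε κ s hs' _ L ∅ _ (by simp) hLnd hLell hGd]
    set F : Fin n ⊕ Fin n0 → MvPolynomial (Fin r) ℂ := Sum.elim
      (fun l => (∏ i ∈ B l, el v i) *
          ((k * q l) * ∏ j, (if c l j < 0 then X j * dm M j else 1)))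
      (fun l => (k * q0 l) * ∏ j, (if c0 l j < 0 then X j * dm M j else 1)) with hF
    have h3 : (k * Polynomial.aeval (∑ j, X j : MvPolynomial (Fin r) ℂ) p) * ∏ j, dm M j =
        ∑ x, F x := by
      rw [mul_assoc, hrel, Fintype.sum_sum_type, mul_add, Finset.mul_sum, Finset.mul_sum]
      congr 1
      · exact Finset.sum_congr rfl fun c _ => by rw [hF, Sum.elim_inl]; ring
      · exact Finset.sum_congr rfl fun c _ => by rw [hF, Sum.elim_inr]; ring
    rw [h3, FF_sum v ε hε κ s hs', Fintype.sum_sum_type]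
    · rw [Finset.sum_eq_zero, Finset.sum_eq_zero, add_zero]
      · intro l _
        rw [hF, Sum.elim_inr]
        rw [mul_assoc]
        rw [mul_comm (q0 l), ← mul_assoc, mul_comm _ (q0 l)]
        have h4 := FF_kill v ε κ s (yT v T δ) (∏ j, (if c0 l j < 0 then X j * dm M j else 1)) ∅
          (fun S q' _ => by
            refine killed0G v ε hε κ M hκM s T δ hδ hT0 (c0 l) (η l) (hηk l) ?_ S q'
            have h5 := Finset.single_le_sum
              (f := fun k : Fin n0 => (η k)⁻¹ * ∑ j, |(c0 k j : ℝ)|)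
              (fun k _ => mul_nonneg (inv_pos.2 (hη k)).le (by positivity)) (Finset.mem_univ l)
            have h6 : ε * ((η l)⁻¹ * ∑ j, |(c0 l j : ℝ)|) < -δ :=
              lt_of_le_of_lt (mul_le_mul_of_nonneg_left h5 hε.le) hεδ1
            have h7 := mul_lt_mul_of_pos_left h6 (hη l)
            have h8 : η l * (ε * ((η l)⁻¹ * ∑ j, |(c0 l j : ℝ)|)) = ε * ∑ j, |(c0 l j : ℝ)| := by
              have := (hη l).ne'
              field_simp
            rwa [h8] at h7) L ∅ (q0 l * k) subset_rfl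
        rwa [mul_assoc] at h4
      · intro l _
        rw [hF, Sum.elim_inl]
        have hH : Hyp v ε κ L ∅ ((k * q l) * ∏ j, (if c l j < 0 then X j * dm M j else 1)) :=
          fun i _ h1 h2 => ((hkgood i h1 h2).mul_right _).mul_right _
        obtain ⟨L', hL'⟩ := FF_steps v ε hε κ s hs' (yT v T δ) (B l) L ∅ _
          (Finset.disjoint_empty_right _) hLnd hLell hH
        rw [hL', Finset.union_empty]
        refine FF_kill v ε κ s _ _ (B l) (fun S q' hS => ?_) L' _ _ subset_rfl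
        refine killed1G v ε hε κ M hκM s T δ hδ hT0 (c l) (B l) (KB l) (hKB l)
          (lt_of_le_of_lt ?_ hT1) S q' hS
        refine mul_le_mul_of_nonneg_left ?_ (by positivity)
        exact Finset.single_le_sum (f := fun k : Fin n =>
          (∑ j, |(c k j : ℝ)| + |KB k| * (B k).card)) (fun k _ => by positivity)
          (Finset.mem_univ l)
    · rintro (l | l) _ i _ h1 h2
      · exact (((hkgood i h1 h2).mul_right _).mul_right _).mul_left _
      · exact ((hkgood i h1 h2).mul_right _).mul_right _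
  have hfin : Φ (ph ε) ∅ (lm (N := N) s) (av v) (yT v T δ)
        (k * Polynomial.aeval (∑ j, X j : MvPolynomial (Fin r) ℂ) p) =
      ∑ κ ∈ KK, (∏ j, cf (κ j)) * HH v ε κ s (yT v T δ) ∅
        ((k * Polynomial.aeval (∑ j, X j : MvPolynomial (Fin r) ℂ) p) * ∏ j, dm M j) := by
    unfold Φ HH
    simp only [← integral_const_mul]
    rw [Finset.map_empty, ← integral_finsetSum]
    · refine integral_congr_ae (Eventually.of_forall fun x => ?_)
      simp only
      rw [← hcf ε hε, Finset.mul_sum]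
      exact Finset.sum_congr rfl fun κ _ => by ring
    · intro κ hκ
      have := HH_integrable v ε hε κ s (hzero κ hκ).2.2 (yT v T δ) ∅ _ (hzero κ hκ).2.1
      rw [Finset.map_empty] at this
      exact this.const_mul _
  rw [hfin]
  exact Finset.sum_eq_zero fun κ hκ => by rw [(hzero κ hκ).1, mul_zero]

end Pool.Agent.W425.SH
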