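import Pool.Agent.W425.SH.Kill
import Pool.Agent.W425.SL.Final

set_option autoImplicit false

namespace Pool.Agent.W425.SH

open MvPolynomial Pool.Agent.H628R4.TZ Pool.Agent.W425.SM Pool.Agent.W425.SL MeasureTheory Set
  Filter Topology

variable {r N : ℕ}

/-- **`p(s) Zt(s)` is a polynomial, general local version.** -/
theorem pZtG (v : Fin r → Fin N → ℕ) (R : SmoothFan N) (hv0 : ∀ j, v j ≠ 0)
    (hidx : idx v ∅ = 1) (α : ℝ) (hα : α < 0) (p : Polynomial ℂ) (hR : RelG v p)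
    (hk : ∀ (κ : Fin r → ℕ) (i : Fin N), ∑ j, κ j * v j i = 1 →
      kerP v ∈ Ideal.span {p : MvPolynomial (Fin r) ℂ | ∃ j, 0 < v j i ∧ p = X j + C ((κ j : ℕ) : ℂ)})
    (hC : ∀ K : ℝ, 0 < K → ∀ s : ℝ, 0 < s → ∀ J : Finset (Fin r), J.Nonempty →
      Tendsto (fun m : ℕ => ∫ x, integ v K α s J m x
        ∂(Measure.pi (ms (∅ : Finset (Fin (N+1)))))) atTop (𝓝 (limJ v R α s J))) :
    ∃ (Q : Polynomial ℂ) (s0 : ℝ), 0 < s0 ∧ ∀ s : ℝ, s0 ≤ s →
      p.eval (s : ℂ) * Zt v R α s = Q.eval (s : ℂ) := by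
  obtain ⟨K0, s0, hK0, hs0, hkill⟩ := killsG v p hR (kerP v) hk
  set K : ℝ := (1 + |α|) * K0 + 1 with hK
  have hKpos : 0 < K := by positivity
  have hev : ∀ᶠ m in atTop, dl m * K0 < -α := by
    have h1 : Tendsto (fun m => dl m * K0) atTop (𝓝 (0 * K0)) := dl_tendsto.mul_const K0
    rw [zero_mul] at h1
    exact h1.eventually (gt_mem_nhds (by linarith))
  obtain ⟨Q, hQ⟩ := limit_poly'
    (fun m => PeK v (yz v K α m) (dl m ^ 2) (kerP v) p) p.natDegree
    (fun m => PeK_natDegree _ _ _ _ _) (fun s => p.eval (s : ℂ) * Zt v R α s) s0 (by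
      intro s hs
      have hs' : 0 < s := hs0.trans_le hs
      have h1 := (ker_lim v R hv0 hidx K α s hs' (fun J hJ => hC K hKpos s hs' J hJ)).const_mul
        (p.eval (s : ℂ))
      refine h1.congr' ?_
      filter_upwards [hev] with m hm
      refine PeK_eval v _ _ _ p s (pow_pos (dl_pos m) 2) hs' ?_
      rw [yz_eq]
      have hd := dl_pos m
      have hd1 := dl_le m
      refine hkill _ (pow_pos hd 2) _ (mul_neg_of_neg_of_pos hα hd) ?_ _ ?_ s hs
      · nlinarith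
      · rw [abs_mul, abs_of_pos hd, hK]
        have h2 : dl m ^ 2 ≤ dl m := by nlinarith
        have h3 : (dl m ^ 2 + |α| * dl m) * K0 ≤ (dl m + |α| * dl m) * K0 :=
          mul_le_mul_of_nonneg_right (by linarith) hK0
        nlinarith)
  exact ⟨Q, s0, hs0, fun s hs => hQ s hs⟩


open Polynomial in
theorem mainG_rel [NeZero r] (v : Fin r → Fin N → ℕ) (hv : Ind v)
    (hv0 : ∀ j, v j ≠ 0) (R : SmoothFan N) (hR : Principal v R) (p : ℂ[X]) (hp : RelG v p) :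
    ∃ P : ℂ[X], algebraMap ℂ[X] (RatFunc ℂ) ((Polynomial.X + 1) * p) * topZetaSparseLocal v R =
      algebraMap ℂ[X] (RatFunc ℂ) P := by
  rw [← topZ_neg]
  refine main_of v hv.injective hv0 R hR
    (fun J hJ => (Pool.Agent.W655.SM.taskC4 v J hv).2.1 hJ)
    (fun J => (Pool.Agent.W655.SM.taskC4 v J hv).1) (-1) p ?_
  exact pZtG v R hv0 ((Pool.Agent.W655.SM.taskC4 v ∅ hv).2.2 rfl) (-1) (by norm_num) p hp
    (fun κ i h => Pool.Agent.W655.SM.taskK v κ i h)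
    (fun K hK s hs J hJ => conv_all v hv R hR (-1) (by norm_num) K hK s hs J hJ)

lemma weight_eq_one {v : Fin r → Fin N → ℕ} {h : MvPolynomial (Fin N) ℂ} (hh : Higher v h)
    (j : Fin r) : Finsupp.equivFunOnFinite.symm (v j) ∉ h.support := by
  obtain ⟨ρ, h1, h2⟩ := hh
  intro hj
  have h3 := h2 _ hj
  have h4 := h1 j
  simp only [Finsupp.equivFunOnFinite_symm_apply_apply] at h3
  rw [h4] at h3
  exact lt_irrefl _ h3

lemma sum_ne_zero {v : Fin r → Fin N → ℕ} (hr : 1 ≤ r) (hv : Ind v) (a : Fin r → ℂ)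
    (ha : ∀ j, a j ≠ 0) (h : MvPolynomial (Fin N) ℂ) (hh : Higher v h) : sparse v a + h ≠ 0 := by
  intro h0
  have h1 := congrArg (coeff (Finsupp.equivFunOnFinite.symm (v ⟨0, hr⟩))) h0
  rw [coeff_add, sparse_coeff hv, notMem_support_iff.1 (weight_eq_one hh _), add_zero,
    coeff_zero] at h1
  exact ha _ h1

lemma sum_const {v : Fin r → Fin N → ℕ} (hv0 : ∀ j, v j ≠ 0) (a : Fin r → ℂ)
    (h : MvPolynomial (Fin N) ℂ) (hh : Higher v h) : constantCoeff (sparse v a + h) = 0 := by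
  rw [map_add, sparse_const hv0 a, zero_add]
  obtain ⟨ρ, h1, h2⟩ := hh
  by_contra hne
  have h3 := h2 0 (mem_support_iff.2 hne)
  simp at h3
  linarith

open Polynomial in
theorem final (hH : TaskH2) (hr : 1 ≤ r) (v : Fin r → Fin N → ℕ) (a : Fin r → ℂ)
    (h : MvPolynomial (Fin N) ℂ)
    (hv : AffineIndependent ℚ (fun j => (fun i => (v j i : ℚ) : Fin N → ℚ)))
    (hv0 : ∀ j, v j ≠ 0) (ha : ∀ j, a j ≠ 0) (h1 : Higher v h) (h2 : Above v h)
    (R : SmoothFan N) (hR : Principal v R)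
    (b : ℂ[X]) (hb : Pool.Agent.H628R4.TP.IsLocalBFunction (sparse v a + h) b) :
    ∃ P : ℂ[X], algebraMap ℂ[X] (RatFunc ℂ) b * topZetaSparseLocal v R =
      algebraMap ℂ[X] (RatFunc ℂ) P := by
  have : NeZero r := ⟨by omega⟩
  obtain ⟨h3, h4⟩ := Pool.Agent.W368.SL.taskL1 (sparse v a + h) b (sum_ne_zero hr hv a ha h h1)
    (sum_const hv0 a h h1) (toSL hb)
  obtain ⟨p, hp⟩ := Polynomial.dvd_iff_isRoot.2 (show b.IsRoot (-1) from h3)
  have hp' : b = (Polynomial.X + 1) * p := by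
    rw [hp]
    congr 1
    simp
  rw [hp'] at h4 ⊢
  exact mainG_rel v hv hv0 R hR p (hH v a h p hv ha h1 h2 h4)

end Pool.Agent.W425.SH
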